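import Pool.Agent.helper90.IV.Spec

/-!
# Row MD of MP_26dbae_co: from the regularisation `RG2_stmt` to a subgraph all of whose degrees lie in `[d, κ d]`
-/

set_option autoImplicit false

open scoped BigOperators

namespace Pool.Agent.helper33.IV

open Pool.Agent.helper23.TH Pool.Agent.KS Pool.Agent.IV

noncomputable section

open Classical

theorem MD_dg_erase {V : Type} [Fintype V] (A : V → V → Prop) (U : Finset V) (v w : V)
    (hv : v ∈ U) : dg A U w = dg A (U.erase v) w + (if A w v then 1 else 0) := by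
  unfold dg
  rw [Finset.card_filter, Finset.card_filter, ← Finset.sum_erase_add U _ hv]

theorem MD_erase {V : Type} [Fintype V] (A : V → V → Prop) (hA : ∀ u v, A u v → A v u)
    (U : Finset V) (v : V) (hv : v ∈ U) :
    (∑ w ∈ U, (dg A U w : ℝ)) ≤
      (∑ w ∈ U.erase v, (dg A (U.erase v) w : ℝ)) + 2 * (dg A U v : ℝ) := by
  rw [← Finset.sum_erase_add U _ hv]
  have h1 : ∑ w ∈ U.erase v, (dg A U w : ℝ) =
      ∑ w ∈ U.erase v, (dg A (U.erase v) w : ℝ) +
        ∑ w ∈ U.erase v, (if A w v then (1 : ℝ) else 0) := by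
    rw [← Finset.sum_add_distrib]
    refine Finset.sum_congr rfl fun w _ => ?_
    rw [MD_dg_erase A U v w hv]
    push_cast
    rfl
  have h2 : ∑ w ∈ U.erase v, (if A w v then (1 : ℝ) else 0) ≤ (dg A U v : ℝ) := by
    unfold dg
    rw [← Finset.sum_filter, Finset.sum_const, nsmul_eq_mul, mul_one]
    exact_mod_cast Finset.card_le_card (fun w hw => by
      rw [Finset.mem_filter] at hw ⊢
      exact ⟨Finset.mem_of_mem_erase hw.1, hA _ _ hw.2⟩)
  rw [h1]
  linarith

theorem MD_dg_mono {V : Type} [Fintype V] (A : V → V → Prop) (U' U : Finset V) (h : U' ⊆ U) (v : V) :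
    dg A U' v ≤ dg A U v := by
  unfold dg
  exact Finset.card_le_card (Finset.filter_subset_filter _ h)

theorem MD (h : RG2_stmt) : MD_stmt := by
  intro a ha ha1
  obtain ⟨K, hK, hK2⟩ := h a ha ha1
  refine ⟨max 1 (4 * K), le_max_left _ _, fun C₂ hC₂ => ?_⟩
  obtain ⟨C₁, hC₁, hC₁2⟩ := hK2 (4 * C₂) (by positivity)
  refine ⟨C₁, hC₁, ?_⟩
  intro V _ A hA hV hsum
  obtain ⟨U, hUne, hU1, hU2⟩ := hC₁2 V A hA hV hsum
  have hUc : (0 : ℝ) < (U.card : ℝ) := by exact_mod_cast hUne.card_pos
  obtain ⟨S, hS⟩ : ∃ S : ℝ, S = ∑ v ∈ U, (dg A U v : ℝ) := ⟨_, rfl⟩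
  rw [← hS] at hU1 hU2
  have hpow : (U.card : ℝ) ^ (1 + a) = (U.card : ℝ) * (U.card : ℝ) ^ a := by
    rw [Real.rpow_add hUc, Real.rpow_one]
  have hpa : 0 < (U.card : ℝ) ^ a := Real.rpow_pos_of_pos hUc a
  have hSpos : 0 < S := by
    refine lt_of_lt_of_le ?_ hU1
    rw [hpow]
    positivity
  obtain ⟨d, hd⟩ : ∃ d : ℝ, d = S / (4 * U.card) := ⟨_, rfl⟩
  have hdS : d * (4 * U.card) = S := by
    rw [hd]
    field_simp
  have hdpos : 0 < d := by
    rw [hd]
    positivity
  have hdC : C₂ * (U.card : ℝ) ^ a ≤ d := by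
    rw [hd, le_div_iff₀ (by positivity)]
    rw [hpow] at hU1
    nlinarith
  obtain ⟨U', hU'm, hU'max⟩ := Finset.exists_max_image U.powerset
    (fun X : Finset V => (∑ v ∈ X, (dg A X v : ℝ)) - 2 * d * X.card) ⟨U, Finset.mem_powerset_self U⟩
  have hU'sub : U' ⊆ U := Finset.mem_powerset.1 hU'm
  have hval : 0 < (∑ v ∈ U', (dg A U' v : ℝ)) - 2 * d * U'.card := by
    have h1 := hU'max U (Finset.mem_powerset_self U)
    rw [← hS] at h1
    refine lt_of_lt_of_le ?_ h1
    nlinarith
  have hU'ne : U'.Nonempty := by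
    rw [Finset.nonempty_iff_ne_empty]
    intro h0
    rw [h0] at hval
    simp at hval
  refine ⟨U', d, hU'ne, ?_, ?_⟩
  · refine le_trans ?_ hdC
    refine mul_le_mul_of_nonneg_left ?_ hC₂.le
    refine Real.rpow_le_rpow (by positivity) ?_ ha.le
    exact_mod_cast Finset.card_le_card hU'sub
  · intro v hv
    constructor
    · have h1 := hU'max (U'.erase v)
        (Finset.mem_powerset.2 ((Finset.erase_subset v U').trans hU'sub))
      have h2 := MD_erase A hA U' v hv
      have h3 : ((U'.erase v).card : ℝ) = (U'.card : ℝ) - 1 := by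
        have h4 := Finset.card_erase_add_one hv
        have h5 : ((U'.erase v).card : ℝ) + 1 = (U'.card : ℝ) := by exact_mod_cast h4
        linarith
      rw [h3] at h1
      nlinarith
    · have h1 : (dg A U' v : ℝ) ≤ (dg A U v : ℝ) := by
        exact_mod_cast MD_dg_mono A U' U hU'sub v
      have h2 := hU2 v (hU'sub hv)
      have h3 : (dg A U v : ℝ) ≤ 4 * K * d := by
        have h4 : (dg A U v : ℝ) * U.card ≤ (4 * K * d) * U.card := by
          refine h2.trans (le_of_eq ?_)
          rw [← hdS]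
          ring
        exact le_of_mul_le_mul_right h4 hUc
      have h5 : 4 * K * d ≤ max 1 (4 * K) * d :=
        mul_le_mul_of_nonneg_right (le_max_right _ _) hdpos.le
      linarith

end

end Pool.Agent.helper33.IV
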